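import Mathlib

set_option autoImplicit false

namespace Pool.Agent.Y511.LD

/-- every large integer is represented -/
lemma rep_large (p n N : ℕ) (hp : 2 ≤ p) (hN : (p - 1) ^ 2 * p ^ (n + 1) ≤ N) :
    ∃ d r : ℕ, 1 ≤ d ∧ 1 ≤ r ∧ N + d = (p - 1) * (d * p ^ (n + 1) + r) := by
  obtain ⟨q, rfl⟩ : ∃ q, p = q + 1 := ⟨p - 1, by omega⟩
  rw [Nat.add_sub_cancel] at hN ⊢
  have hq : 1 ≤ q := by omega
  -- `d` in `[1, q]` with `N + d` divisible by `q`
  obtain ⟨d, hd1, hd2, t, ht⟩ : ∃ d, 1 ≤ d ∧ d ≤ q ∧ q ∣ N + d := by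
    refine ⟨q - N % q, ?_, Nat.sub_le _ _, ?_⟩
    · have := Nat.mod_lt N (show 0 < q by omega)
      omega
    · have h1 := Nat.mod_lt N (show 0 < q by omega)
      have h2 := Nat.div_add_mod N q
      refine ⟨N / q + 1, ?_⟩
      rw [mul_add, mul_one]
      omega
  set w := (q + 1) ^ (n + 1) with hw
  have hw1 : 1 ≤ w := Nat.one_le_pow _ _ (by omega)
  have h3 : q * (d * w) < q * t := by
    rw [← ht]
    have h4 : q * (d * w) ≤ q ^ 2 * w := by
      have : q * (d * w) ≤ q * (q * w) := Nat.mul_le_mul_left _ (Nat.mul_le_mul_right _ hd2)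
      calc _ ≤ q * (q * w) := this
        _ = _ := by ring
    omega
  have h5 : d * w < t := Nat.lt_of_mul_lt_mul_left h3
  refine ⟨d, t - d * w, hd1, by omega, ?_⟩
  rw [ht]
  congr 1
  omega

end Pool.Agent.Y511.LD
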