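import Mathlib
import Pool.Agent.W515.LDField

set_option autoImplicit false
set_option linter.unusedSectionVars false

namespace Pool.Agent.Y511.LD

open Polynomial Finset

variable {p : ℕ} [Fact p.Prime] {K : Type*} [Field K] [Algebra (ZMod p) K]

lemma prod_poly (l : K) : ∏ i : ZMod p, (X - C (algebraMap (ZMod p) K i * l) : K[X]) =
    X ^ p - C (l ^ (p - 1)) * X := by
  have h := W515.LD.prod_sub (p := p) (K := RatFunc K) (algebraMap K[X] (RatFunc K) X)
    (algebraMap K[X] (RatFunc K) (C l))
  apply FaithfulSMul.algebraMap_injective K[X] (RatFunc K)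
  rw [map_prod, map_sub, map_mul, map_pow, C_pow, map_pow, ← h]
  apply Finset.prod_congr rfl
  intro i _
  rw [map_sub, C_mul, map_mul]
  congr 2

lemma prod_ne_poly (l : K) :
    ∏ i ∈ (univ : Finset (ZMod p)).erase 0, (X - C (algebraMap (ZMod p) K i * l) : K[X]) =
    X ^ (p - 1) - C (l ^ (p - 1)) := by
  have hp2 := (Fact.out : p.Prime).two_le
  have h := prod_poly (p := p) l
  rw [← Finset.mul_prod_erase univ _ (mem_univ (0 : ZMod p))] at h
  rw [map_zero, zero_mul, C_0, sub_zero] at h
  apply mul_left_cancel₀ (X_ne_zero (R := K))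
  rw [h, mul_sub, ← pow_sub_one_mul (show p ≠ 0 by omega) (X : K[X])]
  ring

lemma prod_ne (T l : K) :
    ∏ i ∈ (univ : Finset (ZMod p)).erase 0, (T - algebraMap (ZMod p) K i * l) =
    T ^ (p - 1) - l ^ (p - 1) := by
  have h := congrArg (Polynomial.eval T) (prod_ne_poly (p := p) l)
  simpa [eval_prod] using h

lemma sum_prod (T l : K) (hl : l ≠ 0)
    (h : ∀ i : ZMod p, i ≠ 0 → T - algebraMap (ZMod p) K i * l ≠ 0) :
    (∑ i : ZMod p, algebraMap (ZMod p) K i * (T - algebraMap (ZMod p) K i * l)⁻¹) *
      ∏ i ∈ (univ : Finset (ZMod p)).erase 0, (T - algebraMap (ZMod p) K i * l) =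
      -l ^ (p - 2) := by
  classical
  have hp2 := (Fact.out : p.Prime).two_le
  rw [prod_ne]
  by_cases hT : T = 0
  · subst hT
    rw [zero_pow (by omega), zero_sub]
    have h1 : ∑ i : ZMod p, algebraMap (ZMod p) K i * (0 - algebraMap (ZMod p) K i * l)⁻¹ =
        ∑ i ∈ (univ : Finset (ZMod p)).erase 0, (-l⁻¹) := by
      rw [← Finset.add_sum_erase univ _ (mem_univ (0 : ZMod p))]
      rw [map_zero, zero_mul, zero_add]
      apply Finset.sum_congr rfl
      intro i hi
      have hi0 : algebraMap (ZMod p) K i ≠ 0 := by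
        rw [ne_eq, FaithfulSMul.algebraMap_eq_zero_iff]
        exact (Finset.mem_erase.1 hi).1
      field_simp
      ring
    rw [h1, Finset.sum_const, Finset.card_erase_of_mem (mem_univ _), card_univ, ZMod.card,
      nsmul_eq_mul]
    have h2 : ((p - 1 : ℕ) : K) = -1 := by
      rw [Nat.cast_sub (by omega), W515.LD.cast_p (p := p) K]
      simp
    have h4 : l ^ (p - 1) = l ^ (p - 2) * l := by
      rw [← pow_succ]
      congr 1
      omega
    rw [h2, h4]
    field_simp
  · have hu : ∀ i : ZMod p, T - algebraMap (ZMod p) K i * l ≠ 0 := by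
      intro i
      by_cases hi : i = 0
      · subst hi
        simpa using hT
      · exact h i hi
    rw [W515.LD.sum_mul_inv T l hl hu]
    have h3 : T ^ (p - 1) - l ^ (p - 1) ≠ 0 := by
      rw [← prod_ne]
      exact Finset.prod_ne_zero_iff.2 fun i _ => hu i
    rw [div_mul_cancel₀ _ h3]

section space

variable {E : Type*} [AddCommGroup E] [Module (ZMod p) E] [Fintype E] [DecidableEq E]

/-- the polynomial of a subspace -/
noncomputable def LL (u : E →ₗ[ZMod p] K) (c : E →ₗ[ZMod p] ZMod p) : K[X] :=
  ∏ h ∈ univ.filter (fun x : E => c x = 0), (X - C (u h))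

lemma LL_monic (u : E →ₗ[ZMod p] K) (c : E →ₗ[ZMod p] ZMod p) : (LL u c).Monic :=
  monic_prod_of_monic _ _ fun _ _ => monic_X_sub_C _

lemma LL_natDegree (u : E →ₗ[ZMod p] K) (c : E →ₗ[ZMod p] ZMod p) :
    (LL u c).natDegree = (univ.filter (fun x : E => c x = 0)).card := by
  rw [LL, natDegree_prod_of_monic _ _ fun _ _ => monic_X_sub_C _]
  simp

lemma LL_eval (u : E →ₗ[ZMod p] K) (c : E →ₗ[ZMod p] ZMod p) (y : K) :
    (LL u c).eval y = ∏ h ∈ univ.filter (fun x : E => c x = 0), (y - u h) := by
  simp [LL, eval_prod]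

lemma LL_shift (u : E →ₗ[ZMod p] K) (c : E →ₗ[ZMod p] ZMod p) (y : K) (x : E) (hx : c x = 0) :
    (LL u c).eval (u x + y) = (LL u c).eval y := by
  rw [LL_eval, LL_eval]
  apply Finset.prod_bij' (fun h _ => h - x) (fun h _ => h + x)
  · intro h hh
    simp only [mem_filter, mem_univ, true_and] at hh ⊢
    rw [map_sub, hh, hx, sub_zero]
  · intro h hh
    simp only [mem_filter, mem_univ, true_and] at hh ⊢
    rw [map_add, hh, hx, add_zero]
  · intro h _
    abel
  · intro h _
    abel
  · intro h _
    rw [map_sub]
    ring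

lemma LL_zero (u : E →ₗ[ZMod p] K) (c : E →ₗ[ZMod p] ZMod p) (x : E) (hx : c x = 0) :
    (LL u c).eval (u x) = 0 := by
  rw [LL_eval]
  apply Finset.prod_eq_zero (i := x)
  · simpa using hx
  · ring

lemma LL_comp (u : E →ₗ[ZMod p] K) (hu : Function.Injective u) (c : E →ₗ[ZMod p] ZMod p) (y : K) :
    (LL u c).comp (X + C y) = LL u c + C ((LL u c).eval y) := by
  classical
  have hcard : ((univ.filter (fun x : E => c x = 0)).image u).card =
      (univ.filter (fun x : E => c x = 0)).card :=
    Finset.card_image_of_injective _ hu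
  have hpos : 0 < (univ.filter (fun x : E => c x = 0)).card := by
    apply Finset.card_pos.2
    exact ⟨0, by simp⟩
  apply Polynomial.eq_of_degree_sub_lt_of_eval_finset_eq
    ((univ.filter (fun x : E => c x = 0)).image u)
  · rw [hcard, ← sub_sub]
    refine lt_of_le_of_lt (degree_sub_le _ _) (max_lt ?_ ?_)
    · have h1 : ((LL u c).comp (X + C y)).Monic := (LL_monic u c).comp_X_add_C y
      have h2 : ((LL u c).comp (X + C y)).natDegree = (LL u c).natDegree := by
        rw [natDegree_comp, natDegree_X_add_C, mul_one]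
      have h3 : ((LL u c).comp (X + C y)).degree = (LL u c).degree := by
        rw [degree_eq_natDegree h1.ne_zero, degree_eq_natDegree (LL_monic u c).ne_zero, h2]
      have h4 := degree_sub_lt h3 h1.ne_zero (by rw [h1.leadingCoeff, (LL_monic u c).leadingCoeff])
      rw [degree_eq_natDegree h1.ne_zero, h2, LL_natDegree] at h4
      exact h4
    · refine lt_of_le_of_lt degree_C_le ?_
      exact_mod_cast hpos
  · intro z hz
    obtain ⟨x, hx, rfl⟩ := Finset.mem_image.1 hz
    have hx2 : c x = 0 := by simpa using hx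
    rw [eval_comp, eval_add, eval_X, eval_C, eval_add, eval_C, LL_shift u c y x hx2,
      LL_zero u c x hx2, zero_add]

lemma LL_add (u : E →ₗ[ZMod p] K) (hu : Function.Injective u) (c : E →ₗ[ZMod p] ZMod p)
    (y z : K) : (LL u c).eval (z + y) = (LL u c).eval z + (LL u c).eval y := by
  have h := congrArg (Polynomial.eval z) (LL_comp u hu c y)
  simpa [eval_comp] using h

lemma LL_smul (u : E →ₗ[ZMod p] K) (hu : Function.Injective u) (c : E →ₗ[ZMod p] ZMod p)
    (a : ZMod p) (z : K) : (LL u c).eval (algebraMap (ZMod p) K a * z) =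
      algebraMap (ZMod p) K a * (LL u c).eval z := by
  let f : K →+ K := AddMonoidHom.mk' (fun z => (LL u c).eval z) fun z y => LL_add u hu c y z
  have h := (f.toZModLinearMap p).map_smul a z
  simpa [Algebra.smul_def, f] using h

lemma LL_der (u : E →ₗ[ZMod p] K) (hu : Function.Injective u) (c : E →ₗ[ZMod p] ZMod p) (y : K) :
    (derivative (LL u c)).eval y =
      ∏ h ∈ (univ.filter (fun x : E => c x = 0)).erase 0, (0 - u h) := by
  classical
  have h1 := congrArg (fun P => (derivative P).eval 0) (LL_comp u hu c y)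
  simp only [derivative_comp, derivative_add, derivative_X, derivative_C, add_zero, mul_one,
    eval_comp, eval_add, eval_X, eval_C, zero_add, one_mul] at h1
  rw [h1]
  have h2 : LL u c = X * ∏ h ∈ (univ.filter (fun x : E => c x = 0)).erase 0, (X - C (u h)) := by
    rw [LL, ← Finset.mul_prod_erase _ _ (show (0 : E) ∈ univ.filter (fun x : E => c x = 0) by simp),
      map_zero, C_0, sub_zero]
  rw [h2, derivative_mul, derivative_X, one_mul, eval_add, eval_mul, eval_X, zero_mul, add_zero,
    eval_prod]
  simp

lemma fib_prod (u : E →ₗ[ZMod p] K) (hu : Function.Injective u) (c : E →ₗ[ZMod p] ZMod p)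
    (e : E) (he : c e = 1) (y : K) (a : ZMod p) :
    ∏ x ∈ univ.filter (fun x : E => c x = a), (y - u x) =
      (LL u c).eval y - algebraMap (ZMod p) K a * (LL u c).eval (u e) := by
  have h1 : ∏ x ∈ univ.filter (fun x : E => c x = a), (y - u x) =
      (LL u c).eval (y + algebraMap (ZMod p) K (-a) * u e) := by
    rw [LL_eval]
    apply Finset.prod_bij' (fun x _ => x - a • e) (fun x _ => x + a • e)
    · intro x hx
      simp only [mem_filter, mem_univ, true_and] at hx ⊢
      rw [map_sub, hx, map_smul, he]
      simp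
    · intro x hx
      simp only [mem_filter, mem_univ, true_and] at hx ⊢
      rw [map_add, hx, map_smul, he]
      simp
    · intro x _
      abel
    · intro x _
      abel
    · intro x _
      rw [map_sub, map_smul, Algebra.smul_def, map_neg]
      ring
  rw [h1, LL_add u hu, LL_smul u hu, map_neg]
  ring

lemma fib_sum (u : E →ₗ[ZMod p] K) (hu : Function.Injective u) (c : E →ₗ[ZMod p] ZMod p)
    (e : E) (he : c e = 1) (y : K) (a : ZMod p) (hy : ∀ x : E, c x = a → y - u x ≠ 0) :
    ∑ x ∈ univ.filter (fun x : E => c x = a), (y - u x)⁻¹ =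
      (∏ h ∈ (univ.filter (fun x : E => c x = 0)).erase 0, (0 - u h)) *
      ((LL u c).eval y - algebraMap (ZMod p) K a * (LL u c).eval (u e))⁻¹ := by
  classical
  have h1 : ∏ x ∈ univ.filter (fun x : E => c x = a), (X - C (u x)) =
      LL u c - C (algebraMap (ZMod p) K a * (LL u c).eval (u e)) := by
    have h2 : ∏ x ∈ univ.filter (fun x : E => c x = a), (X - C (u x)) =
        (LL u c).comp (X + C (algebraMap (ZMod p) K (-a) * u e)) := by
      rw [LL, Polynomial.prod_comp]
      apply Finset.prod_bij' (fun x _ => x - a • e) (fun x _ => x + a • e)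
      · intro x hx
        simp only [mem_filter, mem_univ, true_and] at hx ⊢
        rw [map_sub, hx, map_smul, he]
        simp
      · intro x hx
        simp only [mem_filter, mem_univ, true_and] at hx ⊢
        rw [map_add, hx, map_smul, he]
        simp
      · intro x _
        abel
      · intro x _
        abel
      · intro x _
        rw [sub_comp, X_comp, C_comp, map_sub, map_smul, Algebra.smul_def, map_neg, C_sub,
          neg_mul, C_neg]
        ring
    rw [h2, LL_comp u hu, LL_smul u hu, map_neg, neg_mul, C_neg]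
    ring
  have h3 := congrArg (fun P => (derivative P).eval y) h1
  simp only [derivative_prod_finset, derivative_sub, derivative_X, derivative_C, sub_zero, mul_one,
    eval_finsetSum, eval_prod, eval_sub, eval_X, eval_C] at h3
  rw [LL_der u hu] at h3
  rw [← h3, ← fib_prod u hu c e he, Finset.sum_mul]
  apply Finset.sum_congr rfl
  intro x hx
  have hx2 : c x = a := by simpa using hx
  rw [← Finset.mul_prod_erase _ _ hx]
  have h4 : ∏ j ∈ (univ.filter (fun x : E => c x = a)).erase x, (y - u j) ≠ 0 := by
    apply Finset.prod_ne_zero_iff.2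
    intro j hj
    exact hy j (by simpa using (Finset.mem_erase.1 hj).2)
  have h5 := hy x hx2
  field_simp

/-- the partial fraction identity for a finite space and a linear form on it -/
lemma main_sum (u : E →ₗ[ZMod p] K) (hu : Function.Injective u) (c : E →ₗ[ZMod p] ZMod p)
    (e : E) (he : c e = 1) (y : K) (hy : ∀ x : E, c x ≠ 0 → y - u x ≠ 0) :
    (∑ x : E, algebraMap (ZMod p) K (c x) * (y - u x)⁻¹) *
      ∏ x ∈ univ.filter (fun x : E => c x ≠ 0), (y - u x) =
      -((∏ h ∈ (univ.filter (fun x : E => c x = 0)).erase 0, (0 - u h)) *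
        (∏ x ∈ univ.filter (fun x : E => c x = 1), u x) ^ (p - 2)) := by
  classical
  set κ := ∏ h ∈ (univ.filter (fun x : E => c x = 0)).erase 0, (0 - u h) with hκ
  set T := (LL u c).eval y with hT
  set l := (LL u c).eval (u e) with hl
  have hne : ∀ a : ZMod p, a ≠ 0 → T - algebraMap (ZMod p) K a * l ≠ 0 := by
    intro a ha
    rw [hT, hl, ← fib_prod u hu c e he]
    apply Finset.prod_ne_zero_iff.2
    intro x hx
    apply hy
    rw [show c x = a by simpa using hx]
    exact ha
  have hl1 : ∏ x ∈ univ.filter (fun x : E => c x = 1), u x = l := by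
    rw [hl, LL_eval]
    apply Finset.prod_bij' (fun x _ => e - x) (fun x _ => e - x)
    · intro x hx
      simp only [mem_filter, mem_univ, true_and] at hx ⊢
      rw [map_sub, hx, he, sub_self]
    · intro x hx
      simp only [mem_filter, mem_univ, true_and] at hx ⊢
      rw [map_sub, hx, he, sub_zero]
    · intro x _
      abel
    · intro x _
      abel
    · intro x _
      rw [map_sub]
      ring
  have hl0 : l ≠ 0 := by
    rw [← hl1]
    apply Finset.prod_ne_zero_iff.2
    intro x hx
    have hx2 : c x = 1 := by simpa using hx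
    rw [ne_eq, ← map_zero u]
    intro h
    have := hu h
    rw [this, map_zero] at hx2
    exact zero_ne_one hx2
  have h1 : ∑ x : E, algebraMap (ZMod p) K (c x) * (y - u x)⁻¹ =
      κ * ∑ a : ZMod p, algebraMap (ZMod p) K a * (T - algebraMap (ZMod p) K a * l)⁻¹ := by
    rw [← Finset.sum_fiberwise univ (fun x => c x), Finset.mul_sum]
    apply Finset.sum_congr rfl
    intro a _
    by_cases ha : a = 0
    · subst ha
      rw [map_zero, zero_mul, mul_zero]
      apply Finset.sum_eq_zero
      intro x hx
      rw [show c x = 0 by simpa using hx, map_zero, zero_mul]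
    · have h2 : ∑ x ∈ univ.filter (fun x : E => c x = a),
          algebraMap (ZMod p) K (c x) * (y - u x)⁻¹ =
          ∑ x ∈ univ.filter (fun x : E => c x = a), algebraMap (ZMod p) K a * (y - u x)⁻¹ := by
        apply Finset.sum_congr rfl
        intro x hx
        rw [show c x = a by simpa using hx]
      rw [h2, ← Finset.mul_sum, fib_sum u hu c e he y a (fun x hx => hy x (by rw [hx]; exact ha))]
      ring
  have h2 : ∏ x ∈ univ.filter (fun x : E => c x ≠ 0), (y - u x) =
      ∏ a ∈ (univ : Finset (ZMod p)).erase 0, (T - algebraMap (ZMod p) K a * l) := by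
    rw [← Finset.prod_fiberwise_of_maps_to (s := univ.filter (fun x : E => c x ≠ 0))
      (t := (univ : Finset (ZMod p)).erase 0) (g := fun x => c x)]
    · apply Finset.prod_congr rfl
      intro a ha
      rw [hT, hl, ← fib_prod u hu c e he]
      apply Finset.prod_congr _ fun _ _ => rfl
      ext x
      simp only [mem_filter, mem_univ, true_and]
      constructor
      · rintro ⟨_, h⟩
        exact h
      · intro h
        exact ⟨by rw [h]; exact (Finset.mem_erase.1 ha).1, h⟩
    · intro x hx
      simpa using hx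
  rw [h1, h2, mul_assoc, sum_prod T l hl0 hne, hl1]
  ring

end space

end Pool.Agent.Y511.LD
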