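import Mathlib
import Pool.Agent.W515.LDFinal
import Pool.Agent.Y511.LD.Add

set_option autoImplicit false
set_option linter.unusedSectionVars false

namespace Pool.Agent.Y511.LD

open Polynomial Finset LinearAlgebra.Projectivization

variable {p : ℕ} [Fact p.Prime] {k : Type*} [Field k] [Algebra (ZMod p) k] {n : ℕ}

/-- the points of the projective space over the prime field -/
abbrev PP (p : ℕ) [Fact p.Prime] (n : ℕ) := ℙ (ZMod p) (Fin n → ZMod p)

noncomputable instance : Fintype (PP p n) := Fintype.ofFinite _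

noncomputable instance : DecidableEq (PP p n) := Classical.decEq _

lemma prod_lines {M : Type*} [CommMonoid M] (f : (Fin n → ZMod p) → M) :
    ∏ x ∈ univ.filter (fun x : Fin n → ZMod p => x ≠ 0), f x =
      ∏ l : PP p n, ∏ b ∈ (univ : Finset (ZMod p)).erase 0, f (b • l.rep) := by
  classical
  rw [← Finset.prod_product' (univ : Finset (PP p n)) ((univ : Finset (ZMod p)).erase 0)
    (fun l b => f (b • l.rep))]
  symm
  apply Finset.prod_bij (fun (z : PP p n × ZMod p) _ => z.2 • z.1.rep)
  · rintro ⟨l, b⟩ h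
    simp only [mem_product, mem_univ, mem_erase, true_and, ne_eq, and_true] at h
    simp only [mem_filter, mem_univ, true_and, ne_eq]
    exact smul_ne_zero h l.rep_nonzero
  · rintro ⟨l, b⟩ h ⟨l', b'⟩ h' heq
    simp only [mem_product, mem_univ, mem_erase, true_and, ne_eq, and_true] at h h'
    simp only at heq
    have hl : l = l' := by
      rw [← l.mk_rep, ← l'.mk_rep, Projectivization.mk_eq_mk_iff']
      refine ⟨b⁻¹ * b', ?_⟩
      rw [mul_smul, ← heq, smul_smul, inv_mul_cancel₀ h, one_smul]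
    subst hl
    have : b = b' := smul_left_injective _ l.rep_nonzero heq
    rw [this]
  · intro x hx
    simp only [mem_filter, mem_univ, true_and, ne_eq] at hx
    obtain ⟨a, ha⟩ := Projectivization.exists_smul_eq_mk_rep (ZMod p) x hx
    refine ⟨(Projectivization.mk (ZMod p) x hx, ((a⁻¹ : (ZMod p)ˣ) : ZMod p)), ?_, ?_⟩
    · exact Finset.mem_product.2 ⟨mem_univ _, Finset.mem_erase.2 ⟨(Units.ne_zero a⁻¹ : ((a⁻¹ : (ZMod p)ˣ) : ZMod p) ≠ 0), mem_univ _⟩⟩
    · change ((a⁻¹ : (ZMod p)ˣ) : ZMod p) • (Projectivization.mk (ZMod p) x hx).rep = x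
      rw [← ha, Units.smul_def, smul_smul, Units.inv_mul, one_smul]
  · rintro ⟨l, b⟩ _
    rfl

lemma sum_lines {M : Type*} [AddCommMonoid M] (f : (Fin n → ZMod p) → M) :
    ∑ x ∈ univ.filter (fun x : Fin n → ZMod p => x ≠ 0), f x =
      ∑ l : PP p n, ∑ b ∈ (univ : Finset (ZMod p)).erase 0, f (b • l.rep) := by
  classical
  rw [← Finset.sum_product' (univ : Finset (PP p n)) ((univ : Finset (ZMod p)).erase 0)
    (fun l b => f (b • l.rep))]
  symm
  apply Finset.sum_bij (fun (z : PP p n × ZMod p) _ => z.2 • z.1.rep)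
  · rintro ⟨l, b⟩ h
    simp only [mem_product, mem_univ, mem_erase, true_and, ne_eq, and_true] at h
    simp only [mem_filter, mem_univ, true_and, ne_eq]
    exact smul_ne_zero h l.rep_nonzero
  · rintro ⟨l, b⟩ h ⟨l', b'⟩ h' heq
    simp only [mem_product, mem_univ, mem_erase, true_and, ne_eq, and_true] at h h'
    simp only at heq
    have hl : l = l' := by
      rw [← l.mk_rep, ← l'.mk_rep, Projectivization.mk_eq_mk_iff']
      refine ⟨b⁻¹ * b', ?_⟩
      rw [mul_smul, ← heq, smul_smul, inv_mul_cancel₀ h, one_smul]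
    subst hl
    have : b = b' := smul_left_injective _ l.rep_nonzero heq
    rw [this]
  · intro x hx
    simp only [mem_filter, mem_univ, true_and, ne_eq] at hx
    obtain ⟨a, ha⟩ := Projectivization.exists_smul_eq_mk_rep (ZMod p) x hx
    refine ⟨(Projectivization.mk (ZMod p) x hx, ((a⁻¹ : (ZMod p)ˣ) : ZMod p)), ?_, ?_⟩
    · exact Finset.mem_product.2 ⟨mem_univ _, Finset.mem_erase.2 ⟨(Units.ne_zero a⁻¹ : ((a⁻¹ : (ZMod p)ˣ) : ZMod p) ≠ 0), mem_univ _⟩⟩
    · change ((a⁻¹ : (ZMod p)ˣ) : ZMod p) • (Projectivization.mk (ZMod p) x hx).rep = x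
      rw [← ha, Units.smul_def, smul_smul, Units.inv_mul, one_smul]
  · rintro ⟨l, b⟩ _
    rfl

/-- the pairing -/
def dp (c : Fin n → ZMod p) : (Fin n → ZMod p) →ₗ[ZMod p] ZMod p where
  toFun x := c ⬝ᵥ x
  map_add' x y := dotProduct_add c x y
  map_smul' a x := by simp [dotProduct_smul]

lemma dp_apply (c x : Fin n → ZMod p) : dp c x = c ⬝ᵥ x := rfl

lemma dp_comm (c x : Fin n → ZMod p) : dp c x = dp x c := dotProduct_comm c x

lemma exists_dp (c : Fin n → ZMod p) (hc : c ≠ 0) : ∃ e, dp c e = 1 := by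
  obtain ⟨i, hi⟩ := Function.ne_iff.1 hc
  refine ⟨Pi.single i (c i)⁻¹, ?_⟩
  rw [dp_apply, dotProduct_single, mul_inv_cancel₀ (by simpa using hi)]

lemma smul_eq_C (a : ZMod p) (P : k[X]) : a • P = C (algebraMap (ZMod p) k a) * P := by
  rw [Algebra.smul_def, IsScalarTower.algebraMap_apply (ZMod p) k k[X]]
  rfl

lemma assoc_smul (u : (Fin n → ZMod p) →ₗ[ZMod p] k[X]) (b : ZMod p) (hb : b ≠ 0)
    (x : Fin n → ZMod p) : Associated (u (b • x)) (u x) := by
  rw [map_smul, smul_eq_C]
  have h : IsUnit (C (algebraMap (ZMod p) k b)) := by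
    rw [Polynomial.isUnit_C, isUnit_iff_ne_zero, ne_eq, FaithfulSMul.algebraMap_eq_zero_iff]
    exact hb
  exact (associated_unit_mul_left _ _ h)

lemma assoc_neg_smul (u : (Fin n → ZMod p) →ₗ[ZMod p] k[X]) (b : ZMod p) (hb : b ≠ 0)
    (x : Fin n → ZMod p) : Associated (-u (b • x)) (u x) := by
  have h : -u (b • x) = u ((-b) • x) := by rw [neg_smul, map_neg]
  rw [h]
  exact assoc_smul u (-b) (neg_ne_zero.2 hb) x

lemma assoc_A1 (u : (Fin n → ZMod p) →ₗ[ZMod p] k[X]) (c : Fin n → ZMod p) :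
    Associated (∏ x ∈ univ.filter (fun x => dp c x ≠ 0), (-u x))
      ((∏ l ∈ univ.filter (fun l : PP p n => dp c l.rep ≠ 0), u l.rep) ^ (p - 1)) := by
  classical
  have h1 : ∏ x ∈ univ.filter (fun x => dp c x ≠ 0), (-u x) =
      ∏ x ∈ univ.filter (fun x : Fin n → ZMod p => x ≠ 0), if dp c x ≠ 0 then -u x else 1 := by
    rw [← Finset.prod_filter, Finset.filter_filter]
    apply Finset.prod_congr _ fun _ _ => rfl
    ext x
    simp only [mem_filter, mem_univ, true_and]
    constructor
    · intro h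
      exact ⟨by rintro rfl; exact h (map_zero _), h⟩
    · exact fun h => h.2
  rw [h1, prod_lines, ← Finset.prod_pow, Finset.prod_filter]
  apply Associated.prod
  intro l _
  by_cases hl : dp c l.rep = 0
  · rw [if_neg (by simpa using hl)]
    have : ∏ b ∈ (univ : Finset (ZMod p)).erase 0,
        (if dp c (b • l.rep) ≠ 0 then -u (b • l.rep) else 1) = 1 := by
      apply Finset.prod_eq_one
      intro b _
      rw [if_neg (by rw [map_smul, hl]; simp)]
    rw [this]
    exact Associated.refl _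
  · rw [if_pos hl]
    have hc : ((univ : Finset (ZMod p)).erase 0).card = p - 1 := by
      rw [Finset.card_erase_of_mem (mem_univ _), card_univ, ZMod.card]
    have h2 : (u l.rep) ^ (p - 1) = ∏ b ∈ (univ : Finset (ZMod p)).erase 0, u l.rep := by
      rw [Finset.prod_const, hc]
    rw [h2]
    apply Associated.prod
    intro b hb
    have hb0 : b ≠ 0 := (Finset.mem_erase.1 hb).1
    rw [if_pos (by rw [map_smul, smul_eq_mul]; exact mul_ne_zero hb0 hl)]
    exact assoc_neg_smul u b hb0 _

lemma assoc_A2 (u : (Fin n → ZMod p) →ₗ[ZMod p] k[X]) (c : Fin n → ZMod p) :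
    Associated (∏ x ∈ (univ.filter (fun x => dp c x = 0)).erase 0, (-u x))
      ((∏ l ∈ univ.filter (fun l : PP p n => dp c l.rep = 0), u l.rep) ^ (p - 1)) := by
  classical
  have h1 : ∏ x ∈ (univ.filter (fun x => dp c x = 0)).erase 0, (-u x) =
      ∏ x ∈ univ.filter (fun x : Fin n → ZMod p => x ≠ 0), if dp c x = 0 then -u x else 1 := by
    rw [← Finset.prod_filter, Finset.filter_filter]
    apply Finset.prod_congr _ fun _ _ => rfl
    ext x
    simp only [mem_filter, mem_univ, true_and, mem_erase]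
  rw [h1, prod_lines, ← Finset.prod_pow, Finset.prod_filter]
  apply Associated.prod
  intro l _
  by_cases hl : dp c l.rep = 0
  · rw [if_pos hl]
    have hc : ((univ : Finset (ZMod p)).erase 0).card = p - 1 := by
      rw [Finset.card_erase_of_mem (mem_univ _), card_univ, ZMod.card]
    have h2 : (u l.rep) ^ (p - 1) = ∏ b ∈ (univ : Finset (ZMod p)).erase 0, u l.rep := by
      rw [Finset.prod_const, hc]
    rw [h2]
    apply Associated.prod
    intro b hb
    have hb0 : b ≠ 0 := (Finset.mem_erase.1 hb).1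
    rw [if_pos (by rw [map_smul, hl]; simp)]
    exact assoc_neg_smul u b hb0 _
  · rw [if_neg hl]
    have : ∏ b ∈ (univ : Finset (ZMod p)).erase 0,
        (if dp c (b • l.rep) = 0 then -u (b • l.rep) else 1) = 1 := by
      apply Finset.prod_eq_one
      intro b hb
      have hb0 : b ≠ 0 := (Finset.mem_erase.1 hb).1
      rw [if_neg (by rw [map_smul, smul_eq_mul]; exact mul_ne_zero hb0 hl)]
    rw [this]
    exact Associated.refl _

lemma assoc_A3 (u : (Fin n → ZMod p) →ₗ[ZMod p] k[X]) (c : Fin n → ZMod p) :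
    Associated (∏ x ∈ univ.filter (fun x => dp c x = 1), u x)
      (∏ l ∈ univ.filter (fun l : PP p n => dp c l.rep ≠ 0), u l.rep) := by
  classical
  have h1 : ∏ x ∈ univ.filter (fun x => dp c x = 1), u x =
      ∏ x ∈ univ.filter (fun x : Fin n → ZMod p => x ≠ 0), if dp c x = 1 then u x else 1 := by
    rw [← Finset.prod_filter, Finset.filter_filter]
    apply Finset.prod_congr _ fun _ _ => rfl
    ext x
    simp only [mem_filter, mem_univ, true_and]
    constructor
    · intro h
      refine ⟨?_, h⟩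
      rintro rfl
      rw [map_zero] at h
      exact zero_ne_one h
    · exact fun h => h.2
  rw [h1, prod_lines, Finset.prod_filter]
  apply Associated.prod
  intro l _
  by_cases hl : dp c l.rep = 0
  · rw [if_neg (by simpa using hl)]
    have : ∏ b ∈ (univ : Finset (ZMod p)).erase 0,
        (if dp c (b • l.rep) = 1 then u (b • l.rep) else 1) = 1 := by
      apply Finset.prod_eq_one
      intro b _
      rw [if_neg (by rw [map_smul, hl]; simp)]
    rw [this]
    exact Associated.refl _
  · rw [if_pos hl, Finset.prod_eq_single (dp c l.rep)⁻¹]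
    · rw [if_pos (by rw [map_smul, smul_eq_mul, inv_mul_cancel₀ hl])]
      exact assoc_smul u _ (inv_ne_zero hl) _
    · intro b _ hb
      rw [if_neg]
      intro h
      apply hb
      rw [map_smul, smul_eq_mul] at h
      exact eq_inv_of_mul_eq_one_left h
    · intro h
      exact absurd (Finset.mem_erase.2 ⟨inv_ne_zero hl, mem_univ _⟩) h

/-- the product over all points -/
noncomputable def Del (u : (Fin n → ZMod p) →ₗ[ZMod p] k[X]) : k[X] := ∏ l : PP p n, u l.rep

/-- the space of constants -/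
noncomputable def ww (u : (Fin n → ZMod p) →ₗ[ZMod p] k[X]) :
    (Fin n → ZMod p) →ₗ[ZMod p] k[X] where
  toFun c := ∑ l : PP p n, (dp c l.rep) • ∏ l' ∈ univ.erase l, u l'.rep
  map_add' c c' := by
    rw [← Finset.sum_add_distrib]
    apply Finset.sum_congr rfl
    intro l _
    rw [dp_comm (c + c'), map_add, add_smul, dp_comm, dp_comm l.rep c']
  map_smul' a c := by
    rw [Finset.smul_sum]
    apply Finset.sum_congr rfl
    intro l _
    rw [dp_comm (a • c), map_smul, smul_smul, dp_comm l.rep c]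
    rfl

lemma ww_apply (u : (Fin n → ZMod p) →ₗ[ZMod p] k[X]) (c : Fin n → ZMod p) :
    ww u c = ∑ l : PP p n, (dp c l.rep) • ∏ l' ∈ univ.erase l, u l'.rep := rfl

/-- a linear map to polynomials as a linear map to rational functions -/
noncomputable def rf (u : (Fin n → ZMod p) →ₗ[ZMod p] k[X]) :
    (Fin n → ZMod p) →ₗ[ZMod p] RatFunc k :=
  (IsScalarTower.toAlgHom (ZMod p) k[X] (RatFunc k)).toLinearMap ∘ₗ u

lemma rf_apply (u : (Fin n → ZMod p) →ₗ[ZMod p] k[X]) (x : Fin n → ZMod p) :
    rf u x = algebraMap k[X] (RatFunc k) (u x) := rfl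

lemma rf_injective (u : (Fin n → ZMod p) →ₗ[ZMod p] k[X]) (hu : Function.Injective u) :
    Function.Injective (rf u) := by
  intro x y h
  rw [rf_apply, rf_apply] at h
  exact hu (FaithfulSMul.algebraMap_injective k[X] (RatFunc k) h)

lemma sum_zero (u : (Fin n → ZMod p) →ₗ[ZMod p] k[X]) (hu : Function.Injective u)
    (c : Fin n → ZMod p) :
    (∑ x, algebraMap (ZMod p) (RatFunc k) (dp c x) * (0 - rf u x)⁻¹) *
      algebraMap k[X] (RatFunc k) (Del u) = algebraMap k[X] (RatFunc k) (ww u c) := by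
  classical
  have hp2 := (Fact.out : p.Prime).two_le
  have h1 : ∑ x, algebraMap (ZMod p) (RatFunc k) (dp c x) * (0 - rf u x)⁻¹ =
      ∑ x ∈ univ.filter (fun x : Fin n → ZMod p => x ≠ 0),
        algebraMap (ZMod p) (RatFunc k) (dp c x) * (0 - rf u x)⁻¹ := by
    symm
    apply Finset.sum_filter_of_ne
    intro x _ h hx
    apply h
    rw [hx, map_zero, map_zero, zero_mul]
  rw [h1, sum_lines, ww_apply, map_sum, Finset.sum_mul]
  apply Finset.sum_congr rfl
  intro l _
  have hl0 : rf u l.rep ≠ 0 := by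
    rw [ne_eq, ← map_zero (rf u)]
    intro h
    exact l.rep_nonzero (rf_injective u hu h)
  have h2 : ∀ b ∈ (univ : Finset (ZMod p)).erase 0,
      algebraMap (ZMod p) (RatFunc k) (dp c (b • l.rep)) * (0 - rf u (b • l.rep))⁻¹ =
      -(algebraMap (ZMod p) (RatFunc k) (dp c l.rep) * (rf u l.rep)⁻¹) := by
    intro b hb
    have hb0 : algebraMap (ZMod p) (RatFunc k) b ≠ 0 := by
      rw [ne_eq, FaithfulSMul.algebraMap_eq_zero_iff]
      exact (Finset.mem_erase.1 hb).1
    rw [(dp c).map_smul, (rf u).map_smul, smul_eq_mul, map_mul, Algebra.smul_def]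
    field_simp
    ring
  rw [Finset.sum_congr rfl h2, Finset.sum_const, Finset.card_erase_of_mem (mem_univ _), card_univ,
    ZMod.card, nsmul_eq_mul]
  have h3 : ((p - 1 : ℕ) : RatFunc k) = -1 := by
    rw [Nat.cast_sub (by omega), W515.LD.cast_p (p := p) (RatFunc k)]
    simp
  rw [h3, Del, ← Finset.mul_prod_erase univ _ (mem_univ l), smul_eq_C, map_mul, map_mul,
    ← rf_apply u l.rep]
  have h4 : algebraMap (ZMod p) (RatFunc k) (dp c l.rep) =
      algebraMap k[X] (RatFunc k) (C (algebraMap (ZMod p) k (dp c l.rep))) := by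
    rw [IsScalarTower.algebraMap_apply (ZMod p) k[X] (RatFunc k),
      IsScalarTower.algebraMap_apply (ZMod p) k k[X]]
    rfl
  rw [h4]
  field_simp

lemma ww_assoc (u : (Fin n → ZMod p) →ₗ[ZMod p] k[X]) (hu : Function.Injective u)
    (c : Fin n → ZMod p) (hc : c ≠ 0) :
    Associated (ww u c) ((∏ l ∈ univ.filter (fun l : PP p n => dp c l.rep = 0), u l.rep) ^ p) := by
  classical
  have hp2 := (Fact.out : p.Prime).two_le
  obtain ⟨e, he⟩ := exists_dp c hc
  have hu0 : ∀ x, x ≠ 0 → u x ≠ 0 := by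
    intro x hx h
    rw [← map_zero u] at h
    exact hx (hu h)
  have hr0 : ∀ x, x ≠ 0 → rf u x ≠ 0 := by
    intro x hx h
    rw [← map_zero (rf u)] at h
    exact hx (rf_injective u hu h)
  have h1 := main_sum (rf u) (rf_injective u hu) (dp c) e he 0 (by
    intro x hx
    rw [zero_sub, ne_eq, neg_eq_zero]
    apply hr0
    rintro rfl
    exact hx (map_zero _))
  have h2 := sum_zero u hu c
  have h3 : algebraMap k[X] (RatFunc k) (ww u c *
      ∏ x ∈ univ.filter (fun x => dp c x ≠ 0), (-u x)) =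
      algebraMap k[X] (RatFunc k) (-(Del u * (∏ x ∈ (univ.filter (fun x => dp c x = 0)).erase 0,
        (-u x)) * (∏ x ∈ univ.filter (fun x => dp c x = 1), u x) ^ (p - 2))) := by
    rw [map_mul, ← h2, map_neg, map_mul, map_mul, map_pow, map_prod, map_prod, map_prod]
    simp only [map_neg, ← rf_apply]
    simp only [zero_sub] at h1 ⊢
    calc _ = ((∑ x, algebraMap (ZMod p) (RatFunc k) (dp c x) * (-rf u x)⁻¹) *
        ∏ x ∈ univ.filter (fun x => dp c x ≠ 0), (-rf u x)) *
          algebraMap k[X] (RatFunc k) (Del u) := by ring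
      _ = _ := by rw [h1]; ring
  have h4 := FaithfulSMul.algebraMap_injective k[X] (RatFunc k) h3
  set A := ∏ l ∈ univ.filter (fun l : PP p n => dp c l.rep = 0), u l.rep with hA
  set B := ∏ l ∈ univ.filter (fun l : PP p n => dp c l.rep ≠ 0), u l.rep with hB
  have hB0 : B ≠ 0 := Finset.prod_ne_zero_iff.2 fun l _ => hu0 _ l.rep_nonzero
  have hD : Del u = A * B := (Finset.prod_filter_mul_prod_filter_not univ _ _).symm
  have h5 : Associated (ww u c * ∏ x ∈ univ.filter (fun x => dp c x ≠ 0), (-u x))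
      (A ^ p * B ^ (p - 1)) := by
    rw [h4]
    have h6 : A ^ p * B ^ (p - 1) = A * B * A ^ (p - 1) * B ^ (p - 2) := by
      rw [← pow_sub_one_mul (show p ≠ 0 by omega) A]
      have h7 : B ^ (p - 1) = B ^ (p - 2) * B := by
        rw [← pow_succ]
        congr 1
        omega
      rw [h7]
      ring
    rw [h6]
    have h8 : ∀ P Q : k[X], Associated P Q → Associated (-P) Q := by
      intro P Q h
      exact (Associated.neg_left h)
    apply h8
    rw [hD]
    exact ((Associated.refl _).mul_mul (assoc_A2 u c)).mul_mul ((assoc_A3 u c).pow_pow)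
  exact Associated.of_mul_right h5 (assoc_A1 u c) (by
    intro h
    have := (assoc_A1 u c)
    rw [h] at this
    exact pow_ne_zero _ hB0 ((Associated.symm this).eq_zero_iff.2 rfl))

lemma ww_eq (u : (Fin n → ZMod p) →ₗ[ZMod p] k[X]) (hu : Function.Injective u)
    (c : Fin n → ZMod p) (hc : c ≠ 0) : ∃ ε : k, ε ≠ 0 ∧
    ww u c = C ε * (∏ l ∈ univ.filter (fun l : PP p n => dp c l.rep = 0), u l.rep) ^ p := by
  obtain ⟨v, hv⟩ := (ww_assoc u hu c hc).symm
  obtain ⟨r, hr, hr2⟩ := Polynomial.isUnit_iff.1 v.isUnit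
  exact ⟨r, hr.ne_zero, by rw [← hv, ← hr2]; ring⟩

end Pool.Agent.Y511.LD
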