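import Mathlib
import Pool.Agent.Y511.LD.Lines

set_option autoImplicit false
set_option linter.unusedSectionVars false

namespace Pool.Agent.Y511.LD

open Polynomial Finset LinearAlgebra.Projectivization

variable {p : ℕ} [Fact p.Prime]

lemma card_fib {E G : Type*} [AddCommGroup E] [AddCommGroup G] [Fintype E] [Fintype G]
    [DecidableEq G] (f : E →+ G) (hf : Function.Surjective f) (g : G) :
    (univ.filter (fun x => f x = g)).card * Fintype.card G = Fintype.card E := by
  have h1 : Fintype.card E = ∑ g' : G, (univ.filter (fun x => f x = g')).card := by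
    rw [← Finset.card_univ]
    exact Finset.card_eq_sum_card_fiberwise (fun _ _ => mem_univ _)
  have h2 : ∀ g' ∈ (univ : Finset G), (univ.filter (fun x => f x = g')).card =
      (univ.filter (fun x => f x = g)).card := by
    intro g' _
    exact AddMonoidHom.card_fiber_eq_of_mem_range f (hf g') (hf g)
  rw [h1, Finset.sum_congr rfl h2, Finset.sum_const, Finset.card_univ, smul_eq_mul, mul_comm]

lemma card_E (n : ℕ) : Fintype.card (Fin n → ZMod p) = p ^ n := by
  simp [ZMod.card]

lemma card_fib1 {n : ℕ} (x : Fin (n + 1) → ZMod p) (hx : x ≠ 0) (a : ZMod p) :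
    (univ.filter (fun c => dp x c = a)).card = p ^ n := by
  obtain ⟨e, he⟩ := exists_dp x hx
  have hp := (Fact.out : p.Prime).pos
  have h := card_fib (dp x).toAddMonoidHom (by
    intro b
    exact ⟨b • e, by simp [he]⟩) a
  rw [card_E, ZMod.card, pow_succ] at h
  exact Nat.eq_of_mul_eq_mul_right hp h

lemma card_fib2 {n : ℕ} (x y : Fin (n + 2) → ZMod p) (hx : x ≠ 0) (hy : ∀ a : ZMod p, y ≠ a • x)
    (a b : ZMod p) :
    (univ.filter (fun c => dp x c = a ∧ dp y c = b)).card = p ^ n := by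
  have hp := (Fact.out : p.Prime).pos
  obtain ⟨i, hi⟩ := Function.ne_iff.1 hx
  rw [Pi.zero_apply] at hi
  obtain ⟨j, hj⟩ : ∃ j, y j ≠ (y i / x i) * x j := by
    by_contra hcon
    push Not at hcon
    exact hy (y i / x i) (funext fun j => by simpa using hcon j)
  have hD : x i * y j - x j * y i ≠ 0 := by
    intro h
    apply hj
    field_simp
    linear_combination h
  have hsurj : Function.Surjective ((dp x).prod (dp y)).toAddMonoidHom := by
    rintro ⟨a, b⟩
    refine ⟨Pi.single i ((a * y j - b * x j) / (x i * y j - x j * y i)) +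
      Pi.single j ((b * x i - a * y i) / (x i * y j - x j * y i)), ?_⟩
    change ((dp x) _, (dp y) _) = (a, b)
    rw [Prod.mk.injEq, map_add, map_add]
    simp only [dp_apply, dotProduct_single]
    constructor
    · rw [← mul_div_assoc, ← mul_div_assoc, ← add_div, div_eq_iff hD]
      ring
    · rw [← mul_div_assoc, ← mul_div_assoc, ← add_div, div_eq_iff hD]
      ring
  have h := card_fib ((dp x).prod (dp y)).toAddMonoidHom hsurj (a, b)
  rw [card_E, Fintype.card_prod, ZMod.card, pow_add] at h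
  have h2 : (univ.filter (fun c => ((dp x).prod (dp y)).toAddMonoidHom c = (a, b))) =
      univ.filter (fun c => dp x c = a ∧ dp y c = b) := by
    apply Finset.filter_congr
    intro c _
    change ((dp x) c, (dp y) c) = (a, b) ↔ _
    rw [Prod.mk.injEq]
  rw [h2] at h
  apply Nat.eq_of_mul_eq_mul_right (Nat.mul_pos hp hp)
  rw [h]
  ring

/-- the first exponent -/
noncomputable def N1 {n : ℕ} (x : Fin n → ZMod p) (l : PP p n) : ℕ :=
  (univ.filter (fun c => dp x c ≠ 0 ∧ dp c l.rep = 1)).card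

/-- the second exponent -/
noncomputable def N2 {n : ℕ} (x : Fin n → ZMod p) (l : PP p n) : ℕ :=
  (((univ.filter (fun c => dp x c = 0)).erase 0).filter (fun c => dp c l.rep = 0)).card

/-- the third exponent -/
noncomputable def N3 {n : ℕ} (x : Fin n → ZMod p) (l : PP p n) : ℕ :=
  ((univ.filter (fun c => dp x c = 1)).filter (fun c => dp c l.rep = 0)).card

lemma N1_eq {n : ℕ} (x : Fin n → ZMod p) (l : PP p n) :
    N1 x l = (univ.filter (fun c => dp x c ≠ 0 ∧ dp l.rep c = 1)).card := by
  rw [N1]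
  congr 1
  apply Finset.filter_congr
  intro c _
  rw [dp_comm c]

lemma N2_eq {n : ℕ} (x : Fin n → ZMod p) (l : PP p n) :
    N2 x l + 1 = (univ.filter (fun c => dp x c = 0 ∧ dp l.rep c = 0)).card := by
  classical
  rw [N2]
  have h : ((univ.filter (fun c => dp x c = 0)).erase 0).filter (fun c => dp c l.rep = 0) =
      (univ.filter (fun c => dp x c = 0 ∧ dp l.rep c = 0)).erase 0 := by
    ext c
    simp only [mem_filter, mem_erase, mem_univ, true_and]
    rw [dp_comm c]
    tauto
  rw [h, Finset.card_erase_add_one]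
  simp

lemma N3_eq {n : ℕ} (x : Fin n → ZMod p) (l : PP p n) :
    N3 x l = (univ.filter (fun c => dp x c = 1 ∧ dp l.rep c = 0)).card := by
  rw [N3, Finset.filter_filter]
  congr 1
  apply Finset.filter_congr
  intro c _
  rw [dp_comm c]

lemma case_eq {n : ℕ} (x : Fin n → ZMod p) (hx : x ≠ 0) (l : PP p n) :
    (l = Projectivization.mk (ZMod p) x hx → ∃ a : ZMod p, a ≠ 0 ∧ l.rep = a • x) ∧
    (l ≠ Projectivization.mk (ZMod p) x hx → ∀ a : ZMod p, l.rep ≠ a • x) := by
  constructor
  · rintro rfl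
    obtain ⟨a, ha⟩ := Projectivization.exists_smul_eq_mk_rep (ZMod p) x hx
    exact ⟨a, Units.ne_zero a, ha.symm⟩
  · intro h a ha
    apply h
    rw [← l.mk_rep, Projectivization.mk_eq_mk_iff']
    exact ⟨a, ha.symm⟩

lemma N_same {n : ℕ} (x : Fin (n + 2) → ZMod p) (hx : x ≠ 0) (l : PP p (n + 2))
    (hl : l = Projectivization.mk (ZMod p) x hx) :
    N1 x l = p ^ (n + 1) ∧ N2 x l + 1 = p ^ (n + 1) ∧ N3 x l = 0 := by
  obtain ⟨a, ha0, ha⟩ := (case_eq x hx l).1 hl
  have h1 : ∀ c, dp l.rep c = a * dp x c := by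
    intro c
    rw [ha, dp_comm, map_smul, smul_eq_mul, dp_comm]
  refine ⟨?_, ?_, ?_⟩
  · rw [N1_eq, ← card_fib1 x hx a⁻¹]
    congr 1
    apply Finset.filter_congr
    intro c _
    rw [h1]
    constructor
    · rintro ⟨_, h⟩
      exact eq_inv_of_mul_eq_one_right h
    · intro h
      rw [h]
      exact ⟨inv_ne_zero ha0, mul_inv_cancel₀ ha0⟩
  · rw [N2_eq, ← card_fib1 x hx 0]
    congr 1
    apply Finset.filter_congr
    intro c _
    rw [h1]
    constructor
    · exact fun h => h.1
    · intro h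
      rw [h]
      exact ⟨rfl, mul_zero _⟩
  · rw [N3_eq, Finset.card_eq_zero, Finset.filter_eq_empty_iff]
    rintro c _ ⟨h, h2⟩
    rw [h1, h, mul_one] at h2
    exact ha0 h2

lemma N_other {n : ℕ} (x : Fin (n + 2) → ZMod p) (hx : x ≠ 0) (l : PP p (n + 2))
    (hl : l ≠ Projectivization.mk (ZMod p) x hx) :
    N1 x l = (p - 1) * p ^ n ∧ N2 x l + 1 = p ^ n ∧ N3 x l = p ^ n := by
  classical
  have h := (case_eq x hx l).2 hl
  refine ⟨?_, ?_, ?_⟩
  · rw [N1_eq]
    have h1 : (univ.filter (fun c => dp x c ≠ 0 ∧ dp l.rep c = 1)).card =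
        ∑ a ∈ (univ : Finset (ZMod p)).erase 0,
          (univ.filter (fun c => dp x c = a ∧ dp l.rep c = 1)).card := by
      rw [Finset.card_eq_sum_card_fiberwise (f := fun c => dp x c)
        (t := (univ : Finset (ZMod p)).erase 0)]
      · apply Finset.sum_congr rfl
        intro a ha
        congr 1
        rw [Finset.filter_filter]
        apply Finset.filter_congr
        intro c _
        constructor
        · rintro ⟨⟨_, h2⟩, h3⟩
          exact ⟨h3, h2⟩
        · rintro ⟨h2, h3⟩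
          exact ⟨⟨by rw [h2]; exact (Finset.mem_erase.1 ha).1, h3⟩, h2⟩
      · intro c hc
        have hc2 : dp x c ≠ 0 ∧ dp l.rep c = 1 := by simpa using hc
        simpa using hc2.1
    rw [h1, Finset.sum_congr rfl fun a _ => card_fib2 x l.rep hx h a 1, Finset.sum_const,
      Finset.card_erase_of_mem (mem_univ _), card_univ, ZMod.card, smul_eq_mul]
  · rw [N2_eq, card_fib2 x l.rep hx h]
  · rw [N3_eq, card_fib2 x l.rep hx h]

lemma N_rel {n : ℕ} (x : Fin (n + 2) → ZMod p) (hx : x ≠ 0) (l : PP p (n + 2)) :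
    N1 x l = 1 + N2 x l + (p - 2) * N3 x l := by
  have hp2 := (Fact.out : p.Prime).two_le
  obtain ⟨q, hq⟩ : ∃ q, p = q + 2 := ⟨p - 2, by omega⟩
  by_cases hl : l = Projectivization.mk (ZMod p) x hx
  · obtain ⟨h1, h2, h3⟩ := N_same x hx l hl
    rw [h1, h3, ← h2]
    ring
  · obtain ⟨h1, h2, h3⟩ := N_other x hx l hl
    rw [h1, h3, add_comm 1, h2, show p - 1 = (p - 2) + 1 by omega]
    ring

lemma card_PP (n : ℕ) : p ^ n = Fintype.card (PP p n) * (p - 1) + 1 := by
  have h := Projectivization.card' (ZMod p) (Fin n → ZMod p)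
  rw [Nat.card_eq_fintype_card, Nat.card_eq_fintype_card, Nat.card_eq_fintype_card, card_E,
    ZMod.card] at h
  exact h

lemma N1_sum {n : ℕ} (x : Fin (n + 2) → ZMod p) (hx : x ≠ 0) :
    ∑ l : PP p (n + 2), N1 x l = p ^ (2 * n + 2) := by
  classical
  have hp2 := (Fact.out : p.Prime).two_le
  rw [← Finset.add_sum_erase univ _ (mem_univ (Projectivization.mk (ZMod p) x hx)),
    (N_same x hx _ rfl).1, Finset.sum_congr rfl fun l hl =>
      (N_other x hx l (Finset.mem_erase.1 hl).1).1, Finset.sum_const,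
    Finset.card_erase_of_mem (mem_univ _), card_univ, smul_eq_mul]
  have h1 := card_PP (p := p) (n + 2)
  have hpos : 0 < Fintype.card (PP p (n + 2)) :=
    Fintype.card_pos_iff.2 ⟨Projectivization.mk (ZMod p) x hx⟩
  obtain ⟨t, ht⟩ : ∃ t, Fintype.card (PP p (n + 2)) = t + 1 :=
    ⟨Fintype.card (PP p (n + 2)) - 1, by omega⟩
  obtain ⟨q, hq⟩ : ∃ q, p = q + 1 := ⟨p - 1, by omega⟩
  rw [ht] at h1 ⊢
  rw [Nat.add_sub_cancel]
  have h2 : t * (p - 1) + p = p ^ (n + 2) := by
    rw [h1]
    have : p - 1 + 1 = p := by omega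
    calc t * (p - 1) + p = t * (p - 1) + (p - 1 + 1) := by rw [this]
      _ = (t + 1) * (p - 1) + 1 := by ring
  have h3 : p ^ (2 * n + 2) = p ^ (n + 2) * p ^ n := by
    rw [← pow_add]
    congr 1
    ring
  rw [h3, ← h2]
  ring

end Pool.Agent.Y511.LD
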