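import Mathlib
import Pool.Agent.Y511.LD.Main

set_option autoImplicit false
set_option linter.unusedSectionVars false

namespace Pool.Agent.Y511.LD

open Polynomial Finset LinearAlgebra.Projectivization

variable {p : ℕ} [Fact p.Prime] {k : Type*} [Field k] [Algebra (ZMod p) k] {n : ℕ}

/-- the family `a z^d + a^p` -/
noncomputable def ud (a : (Fin n → ZMod p) →ₗ[ZMod p] k) (d : ℕ) :
    (Fin n → ZMod p) →ₗ[ZMod p] k[X] where
  toFun x := C (a x) * X ^ d + C ((a x) ^ p)
  map_add' x y := by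
    have : CharP k p := charP_k p k
    rw [map_add, add_pow_char, C_add, C_add]
    ring
  map_smul' b x := by
    have h1 : (algebraMap (ZMod p) k b) ^ p = algebraMap (ZMod p) k b := by
      rw [← map_pow, ZMod.pow_card]
    rw [map_smul, RingHom.id_apply, smul_eq_C, Algebra.smul_def, mul_pow, h1, C_mul, C_mul]
    ring

lemma ud_apply (a : (Fin n → ZMod p) →ₗ[ZMod p] k) (d : ℕ) (x : Fin n → ZMod p) :
    ud a d x = C (a x) * X ^ d + C ((a x) ^ p) := rfl

lemma ud_deg (a : (Fin n → ZMod p) →ₗ[ZMod p] k) (ha : Function.Injective a) (d : ℕ) (hd : 1 ≤ d)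
    (x : Fin n → ZMod p) (hx : x ≠ 0) : (ud a d x).natDegree = d ∧ ud a d x ≠ 0 := by
  have h0 : a x ≠ 0 := by
    intro h
    rw [← map_zero a] at h
    exact hx (ha h)
  have h1 : (C (a x) * X ^ d : k[X]).natDegree = d := natDegree_C_mul_X_pow d _ h0
  have h2 : (ud a d x).natDegree = d := by
    rw [ud_apply, natDegree_add_eq_left_of_natDegree_lt, h1]
    rw [h1, natDegree_C]
    omega
  refine ⟨h2, ?_⟩
  intro h
  rw [h, natDegree_zero] at h2
  omega

lemma ud_good (a : (Fin n → ZMod p) →ₗ[ZMod p] k) (ha : Function.Injective a) (d : ℕ)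
    (hd : 1 ≤ d) : Good (ud a d) d := by
  refine ⟨?_, ?_, fun x hx => (ud_deg a ha d hd x hx).1⟩
  · rw [← LinearMap.ker_eq_bot, LinearMap.ker_eq_bot']
    intro x h
    by_contra hx
    exact (ud_deg a ha d hd x hx).2 h
  · intro l l' hl
    set α := a l.rep with hα
    set β := a l'.rep with hβ
    have hα0 : α ≠ 0 := by
      intro h
      rw [hα, ← map_zero a] at h
      exact l.rep_nonzero (ha h)
    have hβ0 : β ≠ 0 := by
      intro h
      rw [hβ, ← map_zero a] at h
      exact l'.rep_nonzero (ha h)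
    have hD : β * α ^ p - α * β ^ p ≠ 0 := by
      intro h
      have h1 : (β / α) ^ p - β / α = 0 := by
        rw [div_pow]
        field_simp
        linear_combination -h
      rw [← W515.LD.prod_sub_one (p := p), Finset.prod_eq_zero_iff] at h1
      obtain ⟨i, _, hi⟩ := h1
      have h2 : a l'.rep = a (i • l.rep) := by
        rw [map_smul, Algebra.smul_def, ← hα, ← hβ]
        have h3 : β / α = algebraMap (ZMod p) k i := by linear_combination hi
        rw [← h3]
        field_simp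
      have h3 := ha h2
      apply hl
      rw [← l.mk_rep, ← l'.mk_rep]
      symm
      rw [Projectivization.mk_eq_mk_iff']
      exact ⟨i, h3.symm⟩
    refine ⟨C ((β * α ^ p - α * β ^ p)⁻¹ * β), -C ((β * α ^ p - α * β ^ p)⁻¹ * α), ?_⟩
    rw [ud_apply, ud_apply, ← hα, ← hβ]
    have h1 : C ((β * α ^ p - α * β ^ p)⁻¹ * β) * (C α * X ^ d + C (α ^ p)) +
        -C ((β * α ^ p - α * β ^ p)⁻¹ * α) * (C β * X ^ d + C (β ^ p)) =
        C ((β * α ^ p - α * β ^ p)⁻¹ * (β * α ^ p - α * β ^ p)) := by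
      simp only [C_mul, C_sub]
      ring
    rw [h1, inv_mul_cancel₀ hD, C_1]

lemma exists_inj (p : ℕ) [Fact p.Prime] (k : Type*) [Field k] [Infinite k] [Algebra (ZMod p) k]
    (n : ℕ) : ∃ a : (Fin n → ZMod p) →ₗ[ZMod p] k, Function.Injective a := by
  apply Module.le_rank_iff_exists_linearMap.1
  by_contra h
  rw [not_le] at h
  have h1 : Module.rank (ZMod p) k < Cardinal.aleph0 := h.trans (Cardinal.natCast_lt_aleph0)
  have h2 : Module.Finite (ZMod p) k := Module.rank_lt_aleph0_iff.1 h1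
  have h3 : Finite k := Module.finite_of_finite (ZMod p)
  exact not_finite k

/-- the forms -/
noncomputable def form (u : (Fin n → ZMod p) →ₗ[ZMod p] k[X]) (V : k[X]) :
    (Fin n → ZMod p) →ₗ[ZMod p] Ω[RatFunc k⁄k] where
  toFun x := ∑ c : Fin n → ZMod p,
    dp x c • W515.LD.dlog (algebraMap k[X] (RatFunc k) (V - ww u c))
  map_add' x y := by
    rw [← Finset.sum_add_distrib]
    apply Finset.sum_congr rfl
    intro c _
    rw [dp_comm, map_add, add_smul, dp_comm, dp_comm c y]
  map_smul' b x := by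
    rw [Finset.smul_sum]
    apply Finset.sum_congr rfl
    intro c _
    rw [dp_comm, map_smul, smul_smul, dp_comm c x]
    rfl

lemma form_apply (u : (Fin n → ZMod p) →ₗ[ZMod p] k[X]) (V : k[X]) (x : Fin n → ZMod p) :
    form u V x = ∑ c : Fin n → ZMod p,
      dp x c • W515.LD.dlog (algebraMap k[X] (RatFunc k) (V - ww u c)) := rfl

lemma form_log (u : (Fin n → ZMod p) →ₗ[ZMod p] k[X]) (V : k[X]) (hV : ∀ c, V - ww u c ≠ 0)
    (x : Fin n → ZMod p) : ∃ f : RatFunc k, f ≠ 0 ∧ form u V x = W515.LD.dlog f := by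
  have hf : ∀ c, algebraMap k[X] (RatFunc k) (V - ww u c) ≠ 0 := by
    intro c
    rw [ne_eq, FaithfulSMul.algebraMap_eq_zero_iff]
    exact hV c
  refine ⟨∏ c : Fin n → ZMod p, (algebraMap k[X] (RatFunc k) (V - ww u c)) ^ (dp x c).val,
    Finset.prod_ne_zero_iff.2 fun c _ => pow_ne_zero _ (hf c), ?_⟩
  rw [W515.LD.dlog_prod _ _ _ fun c _ => hf c, form_apply]
  apply Finset.sum_congr rfl
  intro c _
  rw [← Nat.cast_smul_eq_nsmul (ZMod p), ZMod.natCast_zmod_val]

lemma der_ww {d : ℕ} {u : (Fin n → ZMod p) →ₗ[ZMod p] k[X]} (h : Good u d) (c : Fin n → ZMod p) :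
    derivative (ww u c) = 0 := by
  by_cases hc : c = 0
  · rw [hc, map_zero, derivative_zero]
  · obtain ⟨ε, -, hε⟩ := ww_eq u h.inj c hc
    rw [hε, derivative_C_mul, der_pow_p, mul_zero]

lemma form_eq {d : ℕ} {u : (Fin n → ZMod p) →ₗ[ZMod p] k[X]} (h : Good u d) (V : k[X])
    (hV1 : derivative V = (Del u) ^ p) (x : Fin n → ZMod p) :
    form u V x = ((∑ c, algebraMap (ZMod p) (RatFunc k) (dp x c) *
        (algebraMap k[X] (RatFunc k) V - rf (ww u) c)⁻¹) *
          algebraMap k[X] (RatFunc k) (Del u ^ p)) • W515.LD.dX k := by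
  rw [form_apply, Finset.sum_mul, Finset.sum_smul]
  apply Finset.sum_congr rfl
  intro c _
  rw [W515.LD.dlog, W515.LD.D_poly, derivative_sub, der_ww h, sub_zero, hV1,
    ← algebraMap_smul (RatFunc k) (dp x c), smul_smul, smul_smul, map_sub, rf_apply]

/-- the construction -/
theorem construction (p : ℕ) [Fact p.Prime] (k : Type*) [Field k] [IsAlgClosed k]
    [Algebra (ZMod p) k] (n d r : ℕ) (hd : 1 ≤ d) (hr : 1 ≤ r) :
    ∃ F : (Fin (n + 2) → ZMod p) →ₗ[ZMod p] Ω[RatFunc k⁄k],
      (∀ x, ∃ f : RatFunc k, f ≠ 0 ∧ F x = f⁻¹ • KaehlerDifferential.D k (RatFunc k) f) ∧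
      ∀ x, x ≠ 0 → ∃ P : k[X], P ≠ 0 ∧
        P.natDegree + p ^ (n + 2) * d = p ^ (n + 2) * ((p - 1) * (d * p ^ (n + 1) + r)) ∧
        F x = (algebraMap k[X] (RatFunc k) P)⁻¹ • W515.LD.dX k := by
  have hp2 := (Fact.out : p.Prime).two_le
  have : Infinite k := IsAlgClosed.instInfinite
  obtain ⟨a, ha⟩ := exists_inj p k (n + 2)
  have hg := ud_good a ha d hd
  obtain ⟨V, hV1, hV2, hV3⟩ := hg.exists_V r hr
  refine ⟨form (ud a d) V, ?_, ?_⟩
  · intro x
    obtain ⟨f, hf, hf2⟩ := form_log (ud a d) V (by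
      intro c h0
      have h1 : V.natDegree ≤ p * (Fintype.card (PP p (n + 2)) * d) := by
        rw [sub_eq_zero] at h0
        rw [h0]
        exact hg.ww_deg c
      rw [hV2] at h1
      nlinarith) x
    exact ⟨f, hf, hf2⟩
  · intro x hx
    obtain ⟨P, hP0, hP, hP2⟩ := hg.exists_P r hr V hV1 hV2 hV3 x hx
    refine ⟨P, hP0, ?_, ?_⟩
    · have h1 := card_PP (p := p) (n + 2)
      obtain ⟨q, hq⟩ : ∃ q, p = q + 1 := ⟨p - 1, by omega⟩
      have h2 : p ^ (n + 2) - p ^ (n + 1) = p ^ (n + 1) * (p - 1) := by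
        rw [Nat.mul_sub, mul_one, ← pow_succ]
      rw [h2] at hP
      have h3 : p ^ (2 * n + 2) * (p * d) = p ^ (n + 2) * (d * p ^ (n + 1)) := by
        have : p ^ (2 * n + 2) * p = p ^ (n + 2) * p ^ (n + 1) := by
          rw [← pow_succ, ← pow_add]
          congr 1
          ring
        calc _ = (p ^ (2 * n + 2) * p) * d := by ring
          _ = _ := by rw [this]; ring
      rw [h3] at hP
      have h4 : p ^ (n + 1) * (p - 1) * (p * (Fintype.card (PP p (n + 2)) * d + r)) =
          p ^ (n + 2) * ((Fintype.card (PP p (n + 2)) * (p - 1)) * d + (p - 1) * r) := by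
        rw [pow_succ p (n + 1)]
        ring
      rw [h4] at hP
      -- cancel
      have h5 : p ^ (n + 2) * ((p - 1) * (d * p ^ (n + 1) + r)) + p ^ (n + 2) * (d * p ^ (n + 1)) =
          p ^ (n + 2) * ((Fintype.card (PP p (n + 2)) * (p - 1)) * d + (p - 1) * r) +
            p ^ (n + 2) * d := by
        have h6 : (p - 1) * p ^ (n + 1) + p ^ (n + 1) = p ^ (n + 2) := by
          rw [pow_succ p (n + 1)]
          have : p - 1 + 1 = p := by omega
          calc (p - 1) * p ^ (n + 1) + p ^ (n + 1) = (p - 1 + 1) * p ^ (n + 1) := by ring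
            _ = _ := by rw [this]; ring
        calc _ = p ^ (n + 2) * (((p - 1) * p ^ (n + 1) + p ^ (n + 1)) * d + (p - 1) * r) := by ring
          _ = p ^ (n + 2) * ((Fintype.card (PP p (n + 2)) * (p - 1) + 1) * d + (p - 1) * r) := by
            rw [h6, h1]
          _ = _ := by ring
      omega
    · rw [form_eq hg V hV1, hP2]

end Pool.Agent.Y511.LD
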